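import Pool.Agent.Y234.GS.StmC

/-!
# Project GS, job BERP: a generic hyperplane is transversal at all points
-/

set_option autoImplicit false

namespace Pool.Agent.Y99.GS

open MvPolynomial Pool.Agent.Y234.GS

/-! ### Scaling -/

section scale

variable {k k' ι : Type} [Field k] [Field k'] [Algebra k k'] [Fintype ι]

private lemma aeval_scale (c : k') (y : ι → k') {P : MvPolynomial ι k} {d : ℕ}
    (hP : P.IsHomogeneous d) : aeval (fun l => c * y l) P = c ^ d * aeval y P := by
  classical
  rw [aeval_def, aeval_def, eval₂_eq', eval₂_eq', Finset.mul_sum]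
  refine Finset.sum_congr rfl fun m hm => ?_
  have h1 : ∑ i, m i = d := by
    have := hP (mem_support_iff.mp hm)
    rw [← this, Finsupp.weight_apply, Finsupp.sum_fintype _ _ (by simp)]
    simp
  have h2 : ∏ i, (c * y i) ^ m i = c ^ d * ∏ i, y i ^ m i := by
    rw [← h1, ← Finset.prod_pow_eq_pow_sum, ← Finset.prod_mul_distrib]
    exact Finset.prod_congr rfl fun i _ => mul_pow _ _ _
  rw [h2]
  ring

end scale

/-! ### Transcendence degree of the point -/

section trdeg

variable {k k' L ι : Type} [Field k] [Field k'] [Algebra k k'] [Field L] [Algebra k L] [Fintype ι]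

/-- The coordinates of a point satisfying all the relations and one more have smaller
transcendence degree. -/
private lemma card_lt (x : ι → L) (y : ι → k') (D : ℕ) (htr : Algebra.trdeg k L = (D : Cardinal))
    (hrel : ∀ G : MvPolynomial ι k, aeval x G = 0 → aeval y G = 0)
    (H : MvPolynomial ι k) (hHx : aeval x H ≠ 0) (hHy : aeval y H = 0)
    (J : Type) [Finite J] (j : J → ι) (hj : AlgebraicIndependent k (fun a => y (j a))) :
    Nat.card J < D := by
  classical
  have hxj : AlgebraicIndependent k (fun a => x (j a)) := by
    rw [algebraicIndependent_iff]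
    intro P hP
    rw [algebraicIndependent_iff] at hj
    apply hj
    have h1 : aeval x (rename j P) = 0 := by
      rw [aeval_rename]
      exact hP
    have h2 := hrel _ h1
    rw [aeval_rename] at h2
    exact h2
  have hcard : (Nat.card J : Cardinal) ≤ (D : Cardinal) := by
    have := hxj.cardinalMk_le_trdeg
    rw [htr] at this
    rwa [Nat.cast_card]
  have hle : Nat.card J ≤ D := by exact_mod_cast hcard
  refine lt_of_le_of_ne hle fun heq => ?_
  have hb : IsTranscendenceBasis k (fun a => x (j a)) := by
    refine hxj.isTranscendenceBasis_of_trdeg_le_of_finite ?_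
    rw [htr, ← heq, Nat.cast_card]
  have halg := hb.isAlgebraic.isAlgebraic (aeval x H)
  obtain ⟨q, hq0, hq⟩ :=
    halg.exists_nonzero_coeff_and_aeval_eq_zero (mem_nonZeroDivisors_of_ne_zero hHx)
  -- lift the coefficients of `q` to polynomials
  have hsurj : Function.Surjective (fun P : MvPolynomial J k =>
      (⟨aeval (fun a => x (j a)) P, by
        rw [Algebra.adjoin_range_eq_range_aeval]; exact ⟨P, rfl⟩⟩ :
        Algebra.adjoin k (Set.range fun a => x (j a)))) := by
    rintro ⟨z, hz⟩
    have hz' := hz
    rw [Algebra.adjoin_range_eq_range_aeval] at hz'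
    obtain ⟨P, hP⟩ := hz'
    exact ⟨P, Subtype.ext hP⟩
  choose c hc using fun n : ℕ => hsurj (q.coeff n)
  have hc' : ∀ n, aeval (fun a => x (j a)) (c n) = ((q.coeff n : _) : L) := fun n =>
    congrArg Subtype.val (hc n)
  have hG : aeval x (∑ n ∈ Finset.range (q.natDegree + 1), rename j (c n) * H ^ n) = 0 := by
    rw [map_sum]
    rw [Polynomial.aeval_eq_sum_range] at hq
    rw [← hq]
    refine Finset.sum_congr rfl fun n _ => ?_
    rw [map_mul, map_pow, aeval_rename, Algebra.smul_def]
    congr 1
    exact hc' n
  have hG' := hrel _ hG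
  rw [map_sum, Finset.sum_range_succ'] at hG'
  have hz : ∑ n ∈ Finset.range q.natDegree, aeval y (rename j (c (n + 1)) * H ^ (n + 1)) = 0 := by
    refine Finset.sum_eq_zero fun n _ => ?_
    rw [map_mul, map_pow, hHy, zero_pow (Nat.succ_ne_zero n), mul_zero]
  rw [hz, zero_add, pow_zero, mul_one, aeval_rename] at hG'
  have h0 : c 0 = 0 := (algebraicIndependent_iff.mp hj) (c 0) hG'
  apply hq0
  apply Subtype.ext
  rw [← hc' 0, h0, map_zero]
  rfl

end trdeg

/-! ### Linear algebra -/

section linear

variable {K ι : Type} [Field K] [Fintype ι]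

/-- A vector orthogonal to the orthogonal of a set `S` is a combination of at most
`n - dim S^⊥` elements of `S`. -/
private lemma double_orth (S : Set (ι → K)) (u : ι → K) (D : ℕ) (T : Submodule K (ι → K))
    (hT : ∀ v, v ∈ T ↔ ∀ s ∈ S, ∑ l, s l * v l = 0) (hD : D ≤ Module.finrank K T)
    (hu : ∀ v ∈ T, ∑ l, u l * v l = 0) :
    ∃ (r : ℕ) (b : Fin r → (ι → K)) (c : Fin r → K), r + D ≤ Fintype.card ι ∧
      (∀ i, b i ∈ S) ∧ ∀ l, u l = ∑ i, c i * b i l := by
  classical
  let Φ := dotProductEquiv K ι
  let U : Submodule K (Module.Dual K (ι → K)) := (Submodule.span K S).map Φ.toLinearMap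
  have hTU : T = U.dualCoannihilator := by
    ext v
    rw [hT, Submodule.mem_dualCoannihilator]
    constructor
    · intro h φ hφ
      obtain ⟨s, hs, rfl⟩ := Submodule.mem_map.mp hφ
      change dotProduct s v = 0
      refine Submodule.span_induction (p := fun s _ => dotProduct s v = 0) ?_ ?_ ?_ ?_ hs
      · intro s hs
        exact h s hs
      · exact zero_dotProduct v
      · intro a b _ _ ha hb
        rw [add_dotProduct, ha, hb, add_zero]
      · intro a b _ hb
        rw [smul_dotProduct, hb, smul_zero]
    · intro h s hs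
      exact h (Φ s) (Submodule.mem_map.mpr ⟨s, Submodule.subset_span hs, rfl⟩)
  have huU : Φ u ∈ U := by
    rw [← Subspace.dualCoannihilator_dualAnnihilator_eq (W := U), ← hTU,
      Submodule.mem_dualAnnihilator]
    intro v hv
    exact hu v hv
  have hus : u ∈ Submodule.span K S := by
    obtain ⟨s, hs, hsu⟩ := Submodule.mem_map.mp huU
    have : s = u := Φ.injective hsu
    rwa [← this]
  have hdim : Module.finrank K U + Module.finrank K T = Fintype.card ι := by
    rw [hTU, Subspace.finrank_add_finrank_dualCoannihilator_eq, Module.finrank_fintype_fun_eq_card]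
  have hUf : Module.finrank K U = Module.finrank K (Submodule.span K S) :=
    LinearEquiv.finrank_eq (Φ.submoduleMap (Submodule.span K S)).symm
  obtain ⟨B, hBS, hBspan, hBind⟩ := exists_linearIndependent K S
  have hBfin : Finite B := hBind.finite
  have : Fintype B := Fintype.ofFinite B
  have hBcard : Fintype.card B = Module.finrank K (Submodule.span K S) := by
    rw [← hBspan, finrank_span_set_eq_card hBind, Set.toFinset_card]
  let e := Fintype.equivFin B
  have hub : u ∈ Submodule.span K (Set.range (fun i : Fin (Fintype.card B) => (e.symm i : ι → K))) := by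
    have : Set.range (fun i : Fin (Fintype.card B) => (e.symm i : ι → K)) = B := by
      ext z
      constructor
      · rintro ⟨i, rfl⟩
        exact (e.symm i).2
      · intro hz
        exact ⟨e ⟨z, hz⟩, by simp⟩
    rw [this, hBspan]
    exact hus
  obtain ⟨c, hc⟩ := (Submodule.mem_span_range_iff_exists_fun K).mp hub
  refine ⟨Fintype.card B, fun i => (e.symm i : ι → K), c, ?_, fun i => hBS (e.symm i).2, ?_⟩
  · omega
  · intro l
    rw [← hc]
    simp [Finset.sum_apply]

end linear

/-- BERP: a generic hyperplane is transversal at all points. -/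
theorem berp : S_BERP := by
  classical
  intro k k' L ι _ _ _ _ _ _ x D u y hM htr hu hy hrel hD
  by_contra hcon
  push Not at hcon
  obtain ⟨i, hi⟩ : ∃ i, y i ≠ 0 := by
    by_contra h
    push Not at h
    exact hy (funext h)
  set y' : ι → k' := fun l => (y i)⁻¹ * y l with hy'
  have hyy' : y = fun l => y i * y' l := by
    funext l
    simp only [hy']
    rw [← mul_assoc, mul_inv_cancel₀ hi, one_mul]
  -- all the relations vanish at `y'`
  have hrel' : ∀ G : MvPolynomial ι k, aeval x G = 0 → aeval y' G = 0 := by
    intro G hG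
    rw [← sum_homogeneousComponent G, map_sum]
    refine Finset.sum_eq_zero fun d _ => ?_
    rw [hy', aeval_scale _ _ (homogeneousComponent_isHomogeneous d G),
      hrel d _ (homogeneousComponent_isHomogeneous d G) (hM.hom G hG d), mul_zero]
  have hHx : aeval x (X i - 1 : MvPolynomial ι k) ≠ 0 := by
    intro h0
    have h1 := hM.hom _ h0 0
    rw [map_sub] at h1
    have h2 : homogeneousComponent 0 (X i : MvPolynomial ι k) = 0 := by
      rw [homogeneousComponent_zero]
      simp
    have h3 : homogeneousComponent 0 (1 : MvPolynomial ι k) = 1 := by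
      rw [homogeneousComponent_zero]
      simp
    rw [h2, h3] at h1
    simp at h1
  have hHy : aeval y' (X i - 1 : MvPolynomial ι k) = 0 := by
    simp [hy', inv_mul_cancel₀ hi]
  -- the gradients of the homogeneous relations
  let S : Set (ι → k') := {s | ∃ (d : ℕ) (G : MvPolynomial ι k), G.IsHomogeneous d ∧
    aeval x G = 0 ∧ s = fun l => aeval y' (pderiv l G)}
  have hT : ∀ v, v ∈ Tan k x y ↔ ∀ s ∈ S, ∑ l, s l * v l = 0 := by
    intro v
    constructor
    · rintro hv s ⟨d, G, hGd, hG, rfl⟩
      have h1 : ∑ l, aeval y (pderiv l G) * v l = 0 := hv G hG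
      have h2 : ∀ l, aeval y' (pderiv l G) = ((y i)⁻¹) ^ (d - 1) * aeval y (pderiv l G) :=
        fun l => aeval_scale _ _ hGd.pderiv
      calc ∑ l, aeval y' (pderiv l G) * v l
          = ((y i)⁻¹) ^ (d - 1) * ∑ l, aeval y (pderiv l G) * v l := by
            rw [Finset.mul_sum]
            refine Finset.sum_congr rfl fun l _ => ?_
            rw [h2 l, mul_assoc]
        _ = 0 := by rw [h1, mul_zero]
    · intro h G hG
      have h1 : ∀ l, aeval y (pderiv l G) = ∑ d ∈ Finset.range (G.totalDegree + 1),
          (y i) ^ (d - 1) * aeval y' (pderiv l (homogeneousComponent d G)) := by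
        intro l
        conv_lhs => rw [← sum_homogeneousComponent G]
        rw [map_sum, map_sum]
        refine Finset.sum_congr rfl fun d _ => ?_
        conv_lhs => rw [hyy']
        exact aeval_scale _ _ (homogeneousComponent_isHomogeneous d G).pderiv
      calc ∑ l, aeval y (pderiv l G) * v l
          = ∑ l, ∑ d ∈ Finset.range (G.totalDegree + 1),
              (y i) ^ (d - 1) * (aeval y' (pderiv l (homogeneousComponent d G)) * v l) := by
            refine Finset.sum_congr rfl fun l _ => ?_
            rw [h1 l, Finset.sum_mul]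
            exact Finset.sum_congr rfl fun d _ => by ring
        _ = ∑ d ∈ Finset.range (G.totalDegree + 1), (y i) ^ (d - 1) *
              ∑ l, aeval y' (pderiv l (homogeneousComponent d G)) * v l := by
            rw [Finset.sum_comm]
            exact Finset.sum_congr rfl fun d _ => by rw [Finset.mul_sum]
        _ = 0 := by
            refine Finset.sum_eq_zero fun d _ => ?_
            rw [h _ ⟨d, homogeneousComponent d G, homogeneousComponent_isHomogeneous d G,
              hM.hom G hG d, rfl⟩, mul_zero]
  obtain ⟨r, b, c, hr, hb, hub⟩ := double_orth S u D (Tan k x y) hT hD hcon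
  -- the matroid of algebraic independence
  let M := AlgebraicIndependent.matroid k k'
  have hE : ∀ s : Set k', s ⊆ M.E := fun s => Set.subset_univ _
  have hsub : Set.range u ⊆ M.closure (Set.range y' ∪ Set.range c) := by
    rw [AlgebraicIndependent.matroid_closure_eq]
    rintro _ ⟨l, rfl⟩
    have hmem : u l ∈ Algebra.adjoin k (Set.range y' ∪ Set.range c) := by
      rw [hub l]
      refine Subalgebra.sum_mem _ fun a _ => Subalgebra.mul_mem _ ?_ ?_
      · exact Algebra.subset_adjoin (Or.inr ⟨a, rfl⟩)
      · obtain ⟨d, G, -, -, hG⟩ := hb a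
        rw [hG]
        refine Algebra.adjoin_mono Set.subset_union_left ?_
        rw [Algebra.adjoin_range_eq_range_aeval]
        exact ⟨_, rfl⟩
    exact isAlgebraic_algebraMap (⟨u l, hmem⟩ : Algebra.adjoin k (Set.range y' ∪ Set.range c))
  have hindep : M.Indep (Set.range u) := by
    rw [AlgebraicIndependent.matroid_indep_iff]
    exact hu.to_subtype_range
  have h1 : M.eRk (Set.range u) = (Fintype.card ι : ℕ∞) := by
    rw [hindep.eRk_eq_encard, Set.encard_eq_coe_toFinset_card, Set.toFinset_card,
      Set.card_range_of_injective hu.injective]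
  have h2 : M.eRk (Set.range y') + 1 ≤ (D : ℕ∞) := by
    have h3 : M.eRk (Set.range y') ≤ ((D - 1 : ℕ) : ℕ∞) := by
      rw [Matroid.eRk_le_iff]
      intro I hI hInd
      have hfin : I.Finite := (Set.finite_range y').subset hI
      have : Finite I := hfin
      choose j hj using fun a : I => hI a.2
      have hInd' : AlgebraicIndependent k (fun a : I => y' (j a)) := by
        rw [AlgebraicIndependent.matroid_indep_iff] at hInd
        have : (fun a : I => y' (j a)) = fun a : I => (a : k') := funext hj
        rw [this]
        exact hInd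
      have := card_lt x y' D htr hrel' _ hHx hHy I j hInd'
      rw [hfin.encard_eq_coe_toFinset_card, ← Nat.card_eq_card_finite_toFinset hfin]
      exact_mod_cast Nat.le_pred_of_lt this
    have hD1 : 0 < D := by
      have h4 : AlgebraicIndependent k (fun a : PEmpty.{1} => y' ((PEmpty.elim a : ι))) := by
        have : Function.Injective (algebraMap k k') := (algebraMap k k').injective
        exact (algebraicIndependent_empty_type_iff).mpr this
      have := card_lt x y' D htr hrel' _ hHx hHy PEmpty.{1} (fun a => PEmpty.elim a) h4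
      omega
    calc M.eRk (Set.range y') + 1 ≤ ((D - 1 : ℕ) : ℕ∞) + 1 := by gcongr
      _ = (D : ℕ∞) := by
        have : D - 1 + 1 = D := Nat.sub_add_cancel hD1
        exact_mod_cast this
  have h3 : M.eRk (Set.range c) ≤ (r : ℕ∞) := by
    refine (M.eRk_le_encard _).trans ?_
    rw [Set.encard_eq_coe_toFinset_card]
    have : (Set.range c).toFinset.card ≤ r := by
      rw [Set.toFinset_range]
      exact Finset.card_image_le.trans (by simp)
    exact_mod_cast this
  have h4 : (Fintype.card ι : ℕ∞) ≤ M.eRk (Set.range y') + M.eRk (Set.range c) := by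
    rw [← h1]
    calc M.eRk (Set.range u) ≤ M.eRk (M.closure (Set.range y' ∪ Set.range c)) := M.eRk_mono hsub
      _ = M.eRk (Set.range y' ∪ Set.range c) := M.eRk_closure_eq _
      _ ≤ _ := M.eRk_union_le_eRk_add_eRk _ _
  have h5 : (Fintype.card ι : ℕ∞) + 1 ≤ (D : ℕ∞) + r := by
    calc (Fintype.card ι : ℕ∞) + 1 ≤ (M.eRk (Set.range y') + M.eRk (Set.range c)) + 1 := by gcongr
      _ = (M.eRk (Set.range y') + 1) + M.eRk (Set.range c) := by ring
      _ ≤ (D : ℕ∞) + r := by gcongr
  have h6 : Fintype.card ι + 1 ≤ D + r := by exact_mod_cast h5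
  omega

end Pool.Agent.Y99.GS
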